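import Mathlib
import Pool.Agent.Results.MP_4abfef_an.TypicalMultipleMixing
import Pool.Agent.Q132.SM.I
import Pool.Agent.Q132.SM.Fun
import Pool.Agent.Q132.SM.Mx
import Pool.Agent.Q132.SM.Ba

/-!
# MP_2967d5_an, Q1 (negative answer)

If `R` is a strongly mixing automorphism of a nonatomic standard probability space, then the strongly
mixing extensions of `R` are comeagre in `𝒢_R`, in particular they do not form a set of first category.
-/

set_option autoImplicit false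

open MeasureTheory Set Filter Topology
open scoped ENNReal symmDiff

namespace Pool.Agent.Results.MP_2967d5_an.ComeagreOverMixing

open Pool.Agent.Results.MP_4abfef_an.TypicalMultipleMixing

section defs

variable {X Y : Type} [MeasurableSpace X] [MeasurableSpace Y]

/-- `𝒢_R`: the classes of the `T ∈ 𝒢(X × Y)` with `π ∘ T = R ∘ π` almost everywhere. -/
def GR (μ : Measure X) (ν : Measure Y) (R : PreAut μ) : Set (Aut (μ.prod ν)) :=
  {q | ∃ T : PreAut (μ.prod ν), cls T = q ∧ ∀ᵐ z ∂(μ.prod ν), (T.1 z).1 = R.1 z.1}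

/-- `E(h | X)`, as a function on `X`. -/
noncomputable def condE (ν : Measure Y) (h : X × Y → ℂ) (x : X) : ℂ := ∫ y, h (x, y) ∂ν

/-- `f ∈ L²(Z | X)`: `f ∈ L²(Z)` and `E(|f|² | X)` is essentially bounded. -/
def InL2ZX (μ : Measure X) (ν : Measure Y) (f : X × Y → ℂ) : Prop :=
  MemLp f 2 (μ.prod ν) ∧ ∃ C : ℝ, ∀ᵐ x ∂μ, ∫ y, ‖f (x, y)‖ ^ 2 ∂ν ≤ C

/-- `T` is a strongly mixing extension of `R`:
`‖E(Tⁿf · ḡ | X) - Rⁿ E(f | X) · E(ḡ | X)‖_{L²(X)} → 0` for all `f, g ∈ L²(Z | X)`. -/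
def IsStronglyMixingExt (μ : Measure X) (ν : Measure Y) (R : PreAut μ) (T : PreAut (μ.prod ν)) : Prop :=
  ∀ f g : X × Y → ℂ, InL2ZX μ ν f → InL2ZX μ ν g →
    Tendsto (fun n : ℕ => eLpNorm (fun x =>
      condE ν (fun z => f ((T.1 : X × Y → X × Y)^[n] z) * starRingEnd ℂ (g z)) x -
        condE ν f ((R.1 : X → X)^[n] x) * condE ν (fun z => starRingEnd ℂ (g z)) x) 2 μ) atTop (𝓝 0)

/-- `𝒮_R ⊆ 𝒢_R`: the strongly mixing extensions of `R`. -/
def SR (μ : Measure X) (ν : Measure Y) (R : PreAut μ) : Set (GR μ ν R) :=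
  {q | ∀ T : PreAut (μ.prod ν), cls T = q.1 → IsStronglyMixingExt μ ν R T}

/-- `R` is strongly mixing. -/
def IsMixing (μ : Measure X) (R : PreAut μ) : Prop :=
  ∀ A B : Set X, MeasurableSet A → MeasurableSet B →
    Tendsto (fun n : ℕ => μ.real (A ∩ (R.1 : X → X)^[n] ⁻¹' B)) atTop (𝓝 (μ.real A * μ.real B))

end defs

/-! ### proof -/

open Pool.H359R3.MX Pool.Agent.Q132.SM

section

variable {X Y : Type} [MeasurableSpace X] [MeasurableSpace Y]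
variable (μ : Measure X) (ν : Measure Y) [IsProbabilityMeasure μ] [IsProbabilityMeasure ν] (R : PreAut μ)

theorem gr_ext (T : PreAut (μ.prod ν)) (h : cls T ∈ GR μ ν R) : IsExt μ ν R.1 T.1 := by
  obtain ⟨T', h1, h2⟩ := h
  refine ⟨T.2, ?_⟩
  filter_upwards [cls_eq h1, h2] with z h3 h4
  rw [← h3, h4]

theorem ext_gr (T : PreAut (μ.prod ν)) (h : IsExt μ ν R.1 T.1) : cls T ∈ GR μ ν R := ⟨T, rfl, h.2⟩

theorem local_dense {N0 : Type} (Gd : N0 → PreAut (μ.prod ν) → Prop)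
    (H : ∀ S : (X × Y) ≃ᵐ (X × Y), IsExt μ ν R.1 S → ∀ (r : ℕ) (E : Fin r → Set (X × Y)), (∀ i, MeasurableSet (E i)) →
      ∀ δ : ℝ, 0 < δ → ∃ S0 : PreAut (μ.prod ν), IsExt μ ν R.1 S0.1 ∧
        (∀ i, (μ.prod ν).real ((S ⁻¹' E i) ∆ (S0.1 ⁻¹' E i)) < δ) ∧
        ∃ J : Set (Set (X × Y)), J.Finite ∧ (∀ F ∈ J, MeasurableSet F) ∧ ∃ δ' : ℝ, 0 < δ' ∧ ∃ n0 : N0,
          ∀ S' : PreAut (μ.prod ν), IsExt μ ν R.1 S'.1 →
            (∀ F ∈ J, (μ.prod ν).real ((S'.1 ⁻¹' F) ∆ (S0.1 ⁻¹' F)) ≤ δ') → Gd n0 S') :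
    ∀ O : Set (GR μ ν R), IsOpen O → O.Nonempty → ∃ U : Set (GR μ ν R), IsOpen U ∧ (O ∩ U).Nonempty ∧
      U ⊆ {e | ∃ n0 : N0, ∀ T : PreAut (μ.prod ν), cls T = e.1 → Gd n0 T} := by
  classical
  rintro O hO ⟨e, he⟩
  obtain ⟨O', hO', rfl⟩ := isOpen_induced_iff.1 hO
  obtain ⟨S, hS⟩ := Quotient.exists_rep e.1
  have hSe : cls S = e.1 := hS
  have hSO : cls S ∈ O' := by rw [hSe]; exact he
  obtain ⟨J, hJ, ε, hε, hJO⟩ := nbhd (μ.prod ν) O' hO' S hSO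
  have hSext : IsExt μ ν R.1 S.1 := gr_ext μ ν R S (by rw [hSe]; exact e.2)
  let A : Fin J.card → Set (X × Y) := fun i => (J.equivFin.symm i).1
  have hA : ∀ i, MeasurableSet (A i) := fun i => hJ _ (J.equivFin.symm i).2
  obtain ⟨Q0, hS0, hclose, J', hJ'f, hJ'm, δ', hδ', n0, hopen⟩ := H S.1 hSext J.card
    (fun i => S.1 '' A i) (fun i => S.1.measurableSet_image.2 (hA i)) ε hε
  have hQ0e : cls Q0 ∈ GR μ ν R := ext_gr μ ν R Q0 hS0
  have hQ0O : cls Q0 ∈ O' := by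
    apply hJO
    intro B hB
    have h1 := hclose (J.equivFin ⟨B, hB⟩)
    have h2 : A (J.equivFin ⟨B, hB⟩) = B := by
      show (J.equivFin.symm (J.equivFin ⟨B, hB⟩)).1 = B
      rw [Equiv.symm_apply_apply]
    rw [h2, img_pre (μ.prod ν) S.1 Q0.1 S.2 hS0.1 B (hJ B hB)] at h1
    exact h1
  refine ⟨Subtype.val ⁻¹' (⋂ F ∈ J', ball (μ.prod ν) Q0 (Q0.1 ⁻¹' F) δ'), ?_, ⟨⟨cls Q0, hQ0e⟩, hQ0O, ?_⟩, ?_⟩
  · refine IsOpen.preimage continuous_subtype_val (hJ'f.isOpen_biInter (fun F hF => ?_))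
    exact TopologicalSpace.isOpen_generateFrom_of_mem ⟨Q0, Q0.1 ⁻¹' F, δ', Q0.1.measurable (hJ'm F hF), hδ', rfl⟩
  · show cls Q0 ∈ ⋂ F ∈ J', ball (μ.prod ν) Q0 (Q0.1 ⁻¹' F) δ'
    simp only [mem_iInter]
    intro F _
    rw [mem_ball_iff, symmDiff_self]
    simpa using hδ'
  · intro e' he'
    refine ⟨n0, fun S' hS' => ?_⟩
    have h3 : cls S' ∈ ⋂ F ∈ J', ball (μ.prod ν) Q0 (Q0.1 ⁻¹' F) δ' := by rw [hS']; exact he'
    simp only [mem_iInter] at h3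
    refine hopen S' (gr_ext μ ν R S' (by rw [hS']; exact e'.2)) (fun F hF => ?_)
    have h4 := (mem_ball_iff _ _ _ _ _).1 (h3 F hF)
    rw [img_pre' (μ.prod ν) Q0.1 S'.1 hS0.1 S'.2 F (hJ'm F hF)]
    exact h4.le

end

theorem mixS_of (X : Type) [MeasurableSpace X] (μ : Measure X) [IsProbabilityMeasure μ] (R : PreAut μ)
    (h : IsMixing μ R) : MixS true 1 μ R.1 := by
  intro A hA
  have h1 := h (A 0) (A 1) (hA 0) (hA 1)
  have h2 : Tendsto (fun n : Fin 1 → ℕ => n 0) atTop atTop := by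
    rw [tendsto_atTop]
    intro b
    filter_upwards [eventually_ge_atTop (fun _ : Fin 1 => b)] with n hn
    exact hn 0
  have h3 := h1.comp h2
  rw [Fin.prod_univ_two]
  refine h3.congr (fun n => ?_)
  show μ.real (A 0 ∩ (R.1 : X → X)^[n 0] ⁻¹' A 1) = μ.real (⋂ j, ((pw true R.1 : X → X)^[ps n j]) ⁻¹' A j)
  congr 1
  ext x
  simp only [mem_iInter, mem_inter_iff, mem_preimage]
  have e0 : ps n 0 = 0 := ps_zero n
  have e1 : ps n 1 = n 0 := ps_one (k := 0) n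
  constructor
  · rintro ⟨h4, h5⟩ j
    fin_cases j
    · show (pw true R.1 : X → X)^[ps n 0] x ∈ A 0
      rw [e0]
      exact h4
    · show (pw true R.1 : X → X)^[ps n 1] x ∈ A 1
      rw [e1]
      exact h5
  · intro h4
    have h5 := h4 0
    have h6 := h4 1
    rw [e0] at h5
    rw [e1] at h6
    exact ⟨h5, h6⟩

theorem comeagre (X Y : Type) [MeasurableSpace X] [StandardBorelSpace X] [MeasurableSpace Y] [StandardBorelSpace Y]
    (μ : Measure X) (ν : Measure Y) [IsProbabilityMeasure μ] [IsProbabilityMeasure ν] [NullSingletonClass μ]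
    [NullSingletonClass ν] (R : PreAut μ) (hR : IsMixing μ R) : SR μ ν R ∈ residual (GR μ ν R) := by
  classical
  have hmix := mixS_of X μ R hR
  have hCD := CD_gen μ ν R.1 R.2 true 1 le_rfl hmix
  have hCD2 := CD2_gen μ ν R.1 R.2 hmix
  obtain ⟨D, hDm, hDd⟩ := exists_D (μ.prod ν)
  let Gd1 : (Fin 2 → ℕ) × ℕ → (Fin 1 → ℕ) → PreAut (μ.prod ν) → Prop := fun i n0 T => ∀ n ≥ n0,
      |(μ.prod ν).real (⋂ j, ((pw true T.1 : X × Y → X × Y)^[ps n j]) ⁻¹' D (i.1 j)) -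
        ∏ j, (μ.prod ν).real (D (i.1 j))| ≤ 1 / ((i.2 : ℝ) + 1)
  let Gd2 : (Fin 2 → ℕ) × ℕ → ℕ → PreAut (μ.prod ν) → Prop := fun i n0 T => ∀ n ≥ n0,
      |sq2 μ ν (D (i.1 0) ∩ (T.1 : X × Y → X × Y)^[n] ⁻¹' D (i.1 1)) - sq2 μ ν (D (i.1 0)) * sq2 μ ν (D (i.1 1))| ≤
        1 / ((i.2 : ℝ) + 1)
  have h1 : (⋂ i, {e : GR μ ν R | ∃ n0, ∀ T : PreAut (μ.prod ν), cls T = e.1 → Gd1 i n0 T}) ∈ residual (GR μ ν R) := by
    apply residual_of
    intro i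
    apply local_dense μ ν R
    intro S hS r E hE δ hδ
    obtain ⟨S0, hS0, hskew, hclose, J', hJ'f, hJ'm, δ', hδ', n0, hopen⟩ := hCD S hS r E hE δ hδ
      (fun j => D (i.1 j)) (fun j => hDm _) (1 / ((i.2 : ℝ) + 1)) (by positivity)
    exact ⟨⟨S0, hS0.1⟩, hS0, hclose, J', hJ'f, hJ'm, δ', hδ', n0, fun S' hS' hc n hn => hopen S'.1 hS' hc n hn⟩
  have h2 : (⋂ i, {e : GR μ ν R | ∃ n0, ∀ T : PreAut (μ.prod ν), cls T = e.1 → Gd2 i n0 T}) ∈ residual (GR μ ν R) := by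
    apply residual_of
    intro i
    apply local_dense μ ν R
    intro S hS r E hE δ hδ
    obtain ⟨S0, hS0, hskew, hclose, J', hJ'f, hJ'm, δ', hδ', n0, hopen⟩ := hCD2 S hS r E hE δ hδ
      (fun j => D (i.1 j)) (fun j => hDm _) (1 / ((i.2 : ℝ) + 1)) (by positivity)
    exact ⟨⟨S0, hS0.1⟩, hS0, hclose, J', hJ'f, hJ'm, δ', hδ', n0, fun S' hS' hc n hn => hopen S'.1 hS' hc n hn⟩
  refine Filter.mem_of_superset (Filter.inter_mem h1 h2) ?_
  rintro e ⟨he1, he2⟩ T hT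
  have hext : IsExt μ ν R.1 T.1 := gr_ext μ ν R T (by rw [hT]; exact e.2)
  have hmT : MixS true 1 (μ.prod ν) T.1 := by
    refine mix_of_dense (μ.prod ν) T.1 T.2 true 1 D hDm hDd (fun f p => ?_)
    obtain ⟨n0, hn0⟩ := mem_iInter.1 he1 (f, p)
    exact ⟨n0, hn0 T hT⟩
  have hmT2 : Mx2 (μ.prod ν) T.1 := fun A B hA hB => mix_one (μ.prod ν) T.1 T.2 true 1 le_rfl hmT A B hA hB
  have hpair := pair_of_dense μ ν T.1 T.2 D hDm hDd (fun f p => by
    obtain ⟨n0, hn0⟩ := mem_iInter.1 he2 (f, p)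
    exact ⟨n0, hn0 T hT⟩)
  intro f g hf hg
  exact Fun.rel_of_sets μ ν R.1 T.1 R.2 T.2
    (fun A B hA hB => rel_sets μ ν R.1 T.1 R.2 T.2 hext.2 hR hmT2 A B hA hB (hpair A B hA hB)) f g hf.1 hg.1 hg.2

theorem not_meagre (X Y : Type) [MeasurableSpace X] [StandardBorelSpace X] [MeasurableSpace Y] [StandardBorelSpace Y]
    (μ : Measure X) (ν : Measure Y) [IsProbabilityMeasure μ] [IsProbabilityMeasure ν] [NullSingletonClass μ]
    [NullSingletonClass ν] (R : PreAut μ) (h : SR μ ν R ∈ residual (GR μ ν R)) : ¬ IsMeagre (SR μ ν R) := by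
  intro h2
  have hB : BaireSpace (GR μ ν R) := _root_.Q132.SM.baire_GR X Y μ ν R.1 R.2
  have h3 : (∅ : Set (GR μ ν R)) ∈ residual (GR μ ν R) := by
    have h4 := Filter.inter_mem h h2
    rwa [inter_compl_self] at h4
  have hmp : MeasurePreserving (MeasurableEquiv.prodCongr R.1 (MeasurableEquiv.refl Y)) (μ.prod ν) (μ.prod ν) :=
    R.2.prod (MeasurePreserving.id ν)
  have hne : Nonempty (GR μ ν R) :=
    ⟨⟨cls ⟨MeasurableEquiv.prodCongr R.1 (MeasurableEquiv.refl Y), hmp⟩, _, rfl, Eventually.of_forall (fun z => rfl)⟩⟩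
  obtain ⟨x, hx⟩ := (dense_of_mem_residual h3).nonempty_iff.2 hne
  exact hx

/-- **Theorem.** Let `(X, μ)`, `(Y, ν)` be nonatomic standard probability spaces. For every strongly mixing
`R ∈ 𝒢(X)` the set `𝒮_R` of the strongly mixing extensions of `R` is comeagre in `𝒢_R` and is not of first
category in `𝒢_R`; and there is a strongly mixing `R ∈ 𝒢(X)`. -/
theorem result (X Y : Type) [MeasurableSpace X] [StandardBorelSpace X] [MeasurableSpace Y] [StandardBorelSpace Y]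
    (μ : Measure X) (ν : Measure Y) [IsProbabilityMeasure μ] [IsProbabilityMeasure ν] [NullSingletonClass μ]
    [NullSingletonClass ν] :
    (∀ R : PreAut μ, IsMixing μ R → SR μ ν R ∈ residual (GR μ ν R) ∧ ¬ IsMeagre (SR μ ν R)) ∧
      ∃ R : PreAut μ, IsMixing μ R ∧ ¬ IsMeagre (SR μ ν R) := by
  have h1 : ∀ R : PreAut μ, IsMixing μ R → SR μ ν R ∈ residual (GR μ ν R) ∧ ¬ IsMeagre (SR μ ν R) := fun R hR =>
    ⟨comeagre X Y μ ν R hR, not_meagre X Y μ ν R (comeagre X Y μ ν R hR)⟩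
  refine ⟨h1, ?_⟩
  obtain ⟨T, hT, hmix⟩ := _root_.Q132.SM.exists_mixing X μ
  exact ⟨⟨T, hT⟩, hmix, (h1 ⟨T, hT⟩ hmix).2⟩

end Pool.Agent.Results.MP_2967d5_an.ComeagreOverMixing
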